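import Mathlib

/-!
Projectional skeletons: limit projections along directed subsets, and induced skeletons on the
pieces `range T_B ∩ ker T_A`.
-/

set_option autoImplicit false

namespace Pool.Agent.Lib.MP_14477d_an

open Set Filter Topology

variable {𝕜 : Type*} [RCLike 𝕜] {X : Type*} [NormedAddCommGroup X] [NormedSpace 𝕜 X]
  {Γ : Type*} [PartialOrder Γ]

/-- The global properties of a projectional skeleton that are used below. -/
structure Sk (P : Γ → X →L[𝕜] X) : Prop where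
  sup : ∀ c : ℕ → Γ, Monotone c → ∃ a, IsLUB (range c) a
  sep : ∀ s, TopologicalSpace.IsSeparable (range (P s))
  le1 : ∀ s t, s ≤ t → ∀ x, P s (P t x) = P s x
  le2 : ∀ s t, s ≤ t → ∀ x, P t (P s x) = P s x
  lim : ∀ (c : ℕ → Γ) (a : Γ), Monotone c → IsLUB (range c) a →
    range (P a) ⊆ closure (⋃ n, range (P (c n)))

/-- Directed subsets of the index set. -/
def Dir (A : Set Γ) : Prop := ∀ s ∈ A, ∀ t ∈ A, ∃ u ∈ A, s ≤ u ∧ t ≤ u

theorem Dir.dominate {A : Set Γ} (hA : Dir A) (N : ℕ → Γ) (hN : ∀ n, N n ∈ A) :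
    ∃ c : ℕ → Γ, Monotone c ∧ (∀ n, c n ∈ A) ∧ ∀ n, N n ≤ c n := by
  have h : ∀ (s : A) (n : ℕ), ∃ u : A, s.1 ≤ u.1 ∧ N n ≤ u.1 := by
    intro s n
    obtain ⟨u, hu, h1, h2⟩ := hA s.1 s.2 (N n) (hN n)
    exact ⟨⟨u, hu⟩, h1, h2⟩
  choose u hu1 hu2 using h
  let c : ℕ → A := fun n => Nat.rec ⟨N 0, hN 0⟩ (fun k s => u s (k + 1)) n
  refine ⟨fun n => (c n).1, monotone_nat_of_le_succ fun n => hu1 (c n) (n + 1),
    fun n => (c n).2, fun n => ?_⟩
  cases n with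
  | zero => exact le_rfl
  | succ k => exact hu2 (c k) (k + 1)

theorem Dir.dominate' {A : Set Γ} (hA : Dir A) (hne : A.Nonempty) {N : Set Γ} (hNc : N.Countable)
    (hN : N ⊆ A) : ∃ c : ℕ → Γ, Monotone c ∧ (∀ n, c n ∈ A) ∧ ∀ s ∈ N, ∃ n, s ≤ c n := by
  obtain ⟨a, ha⟩ := hne
  obtain ⟨f, hf⟩ := (hNc.insert a).exists_eq_range (insert_nonempty a N)
  have h1 : ∀ n, f n ∈ A := by
    intro n
    have : f n ∈ insert a N := hf ▸ ⟨n, rfl⟩
    rcases this with h | h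
    · rw [h]; exact ha
    · exact hN h
  obtain ⟨c, h2, h3, h4⟩ := hA.dominate f h1
  refine ⟨c, h2, h3, fun s hs => ?_⟩
  have : s ∈ range f := hf ▸ mem_insert_of_mem a hs
  obtain ⟨n, rfl⟩ := this
  exact ⟨n, h4 n⟩

variable {P : Γ → X →L[𝕜] X} {C : ℝ}

theorem Sk.tendsto (hP : Sk P) {c : ℕ → Γ} {a : Γ} (hc : Monotone c) (ha : IsLUB (range c) a)
    (hC : ∀ n, ‖P (c n)‖ ≤ C) (x : X) : Tendsto (fun n => P (c n) x) atTop (𝓝 (P a x)) := by
  have hC0 : 0 ≤ C := (norm_nonneg _).trans (hC 0)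
  rw [Metric.tendsto_atTop]
  intro ε hε
  have hz := hP.lim c a hc ha ⟨x, rfl⟩
  obtain ⟨w, hw, hd⟩ := Metric.mem_closure_iff.1 hz (ε / (C + 1)) (by positivity)
  obtain ⟨m, v, rfl⟩ := mem_iUnion.1 hw
  refine ⟨m, fun n hn => ?_⟩
  have h1 : P (c n) x = P (c n) (P a x) := (hP.le1 _ _ (ha.1 ⟨n, rfl⟩) x).symm
  have h2 : P (c n) (P (c m) v) = P (c m) v := hP.le2 _ _ (hc hn) v
  rw [dist_eq_norm] at hd ⊢
  have h3 : P (c n) x - P a x = P (c n) (P a x - P (c m) v) - (P a x - P (c m) v) := by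
    rw [map_sub, h2, ← h1]; abel
  rw [h3]
  have h4 : ‖P (c n) (P a x - P (c m) v)‖ ≤ C * ‖P a x - P (c m) v‖ :=
    ((P (c n)).le_opNorm _).trans (mul_le_mul_of_nonneg_right (hC n) (norm_nonneg _))
  have h5 := norm_sub_le (P (c n) (P a x - P (c m) v)) (P a x - P (c m) v)
  have h6 : (C + 1) * ‖P a x - P (c m) v‖ < ε := by
    rw [lt_div_iff₀ (by positivity)] at hd
    linarith
  linarith

/-- `T` is the strong limit of the projections `P s` along `s ∈ A` (zero if `A` is empty). -/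
def Lim (P : Γ → X →L[𝕜] X) (A : Set Γ) (T : X →L[𝕜] X) : Prop :=
  (A = ∅ → T = 0) ∧ (A.Nonempty → ∀ x, ∀ ε > 0, ∃ s₀ ∈ A, ∀ s ∈ A, s₀ ≤ s → ‖P s x - T x‖ < ε)

theorem Sk.exists_lim [CompleteSpace X] (hP : Sk P) {A : Set Γ} (hA : Dir A)
    (hC : ∀ s ∈ A, ‖P s‖ ≤ C) : ∃ T, Lim P A T := by
  rcases A.eq_empty_or_nonempty with h0 | hne
  · exact ⟨0, fun _ => rfl, fun h => absurd h0 h.ne_empty⟩
  have hcauchy : ∀ x, ∀ ε > 0, ∃ s₀ ∈ A, ∀ s ∈ A, s₀ ≤ s → ‖P s x - P s₀ x‖ < ε := by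
    intro x ε hε
    by_contra hcon
    push Not at hcon
    have h1 : ∀ s : A, ∃ t : A, s.1 ≤ t.1 ∧ ε ≤ ‖P t.1 x - P s.1 x‖ := by
      intro s
      obtain ⟨t, ht, h2, h3⟩ := hcon s.1 s.2
      exact ⟨⟨t, ht⟩, h2, h3⟩
    choose nx hnx1 hnx2 using h1
    obtain ⟨a0, ha0⟩ := hne
    let c : ℕ → A := fun n => Nat.rec ⟨a0, ha0⟩ (fun _ s => nx s) n
    have hmono : Monotone fun n => (c n).1 := monotone_nat_of_le_succ fun n => hnx1 (c n)
    obtain ⟨a, ha⟩ := hP.sup _ hmono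
    have h2 := hP.tendsto hmono ha (fun n => hC _ (c n).2) x
    have h3 := (h2.comp (tendsto_add_atTop_nat 1)).sub h2
    rw [sub_self] at h3
    have h4 := h3.norm
    rw [norm_zero] at h4
    obtain ⟨n, hn⟩ := (h4.eventually (gt_mem_nhds hε)).exists
    exact absurd (hnx2 (c n)) (not_le.2 hn)
  have : Nonempty A := hne.to_subtype
  have : IsDirected A (· ≤ ·) := ⟨fun s t => by
    obtain ⟨u, hu, h1, h2⟩ := hA s.1 s.2 t.1 t.2
    exact ⟨⟨u, hu⟩, h1, h2⟩⟩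
  have hconv : ∀ x, ∃ z, Tendsto (fun s : A => P s.1 x) atTop (𝓝 z) := by
    intro x
    apply cauchy_map_iff_exists_tendsto.1
    rw [Metric.cauchy_iff]
    refine ⟨inferInstance, fun ε hε => ?_⟩
    obtain ⟨s₀, hs₀, h⟩ := hcauchy x (ε / 2) (by positivity)
    refine ⟨Metric.ball (P s₀ x) (ε / 2), ?_, fun y hy z hz => ?_⟩
    · rw [mem_map]
      filter_upwards [eventually_ge_atTop (⟨s₀, hs₀⟩ : A)] with s hs
      rw [mem_preimage, Metric.mem_ball, dist_eq_norm]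
      exact h s.1 s.2 hs
    · have := dist_triangle_right y z (P s₀ x)
      rw [Metric.mem_ball] at hy hz
      linarith
  choose f hf using hconv
  have hb : Bornology.IsBounded (range fun s : A => P s.1) := by
    rw [isBounded_iff_forall_norm_le]
    exact ⟨C, by rintro _ ⟨s, rfl⟩; exact hC s.1 s.2⟩
  refine ⟨ContinuousLinearMap.ofTendstoOfBoundedRange f (fun s : A => P s.1)
    (tendsto_pi_nhds.2 hf) hb, fun h => absurd h hne.ne_empty, fun _ x ε hε => ?_⟩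
  have h1 := Metric.tendsto_nhds.1 (hf x) ε hε
  obtain ⟨s₀, hs₀⟩ := eventually_atTop.1 h1
  refine ⟨s₀.1, s₀.2, fun s hs hle => ?_⟩
  have := hs₀ ⟨s, hs⟩ hle
  rw [dist_eq_norm] at this
  exact this

theorem Lim.mem_tail {A : Set Γ} {T : X →L[𝕜] X} (hT : Lim P A T) (hA : Dir A) {s₀ : Γ}
    (hs₀ : s₀ ∈ A) {M : Set X} (hM : IsClosed M) {x : X} (h : ∀ s ∈ A, s₀ ≤ s → P s x ∈ M) :
    T x ∈ M := by
  rw [← hM.closure_eq, Metric.mem_closure_iff]
  intro ε hε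
  obtain ⟨s₁, hs₁, h1⟩ := hT.2 ⟨s₀, hs₀⟩ x ε hε
  obtain ⟨u, hu, h2, h3⟩ := hA s₀ hs₀ s₁ hs₁
  refine ⟨P u x, h u hu h2, ?_⟩
  rw [dist_comm, dist_eq_norm]
  exact h1 u hu h3

theorem Lim.mem {A : Set Γ} {T : X →L[𝕜] X} (hT : Lim P A T) (hA : Dir A) {M : Set X}
    (hM : IsClosed M) (h0 : (0 : X) ∈ M) {x : X} (h : ∀ s ∈ A, P s x ∈ M) : T x ∈ M := by
  rcases A.eq_empty_or_nonempty with hA0 | ⟨s₀, hs₀⟩
  · rw [hT.1 hA0]; exact h0
  · exact hT.mem_tail hA hs₀ hM fun s hs _ => h s hs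

theorem Lim.apply_P (hP : Sk P) {A : Set Γ} {T : X →L[𝕜] X} (hT : Lim P A T) (hA : Dir A)
    {s : Γ} (hs : s ∈ A) (x : X) : T (P s x) = P s x :=
  hT.mem_tail hA hs (M := {P s x}) isClosed_singleton fun t _ hst => hP.le2 s t hst x

theorem Lim.P_apply (hP : Sk P) {A : Set Γ} {T : X →L[𝕜] X} (hT : Lim P A T) (hA : Dir A)
    {s : Γ} (hs : s ∈ A) (x : X) : P s (T x) = P s x :=
  hT.mem_tail hA hs (M := {z | P s z = P s x})
    (isClosed_eq (P s).continuous continuous_const) fun t _ hst => hP.le1 s t hst x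

theorem Lim.le2 (hP : Sk P) {A B : Set Γ} {T U : X →L[𝕜] X} (hT : Lim P A T) (hA : Dir A)
    (hU : Lim P B U) (hB : Dir B) (hAB : A ⊆ B) (x : X) : U (T x) = T x :=
  hT.mem hA (M := {z | U z = z}) (isClosed_eq U.continuous continuous_id) (map_zero U)
    fun _ hs => hU.apply_P hP hB (hAB hs) x

theorem Lim.le1 (hP : Sk P) {A B : Set Γ} {T U : X →L[𝕜] X} (hT : Lim P A T) (hA : Dir A)
    (hU : Lim P B U) (hB : Dir B) (hAB : A ⊆ B) (x : X) : T (U x) = T x := by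
  have : T (U x - x) ∈ ({0} : Set X) :=
    hT.mem hA isClosed_singleton rfl fun s hs => by
      rw [mem_singleton_iff, map_sub, hU.P_apply hP hB (hAB hs), sub_self]
  rwa [mem_singleton_iff, map_sub, sub_eq_zero] at this

/-- Continuity of the limit projections along a union. -/
theorem Lim.mem_of_cover {A : Set Γ} {T : X →L[𝕜] X} (hT : Lim P A T)
    {M : Set X} (hM : IsClosed M) (h0 : (0 : X) ∈ M) {x : X}
    (h : ∀ s ∈ A, ∃ (B : Set Γ) (U : X →L[𝕜] X), s ∈ B ∧ B ⊆ A ∧ Dir B ∧ Lim P B U ∧ U x ∈ M) :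
    T x ∈ M := by
  rcases A.eq_empty_or_nonempty with hA0 | hne
  · rw [hT.1 hA0]; exact h0
  rw [← hM.closure_eq, Metric.mem_closure_iff]
  intro ε hε
  obtain ⟨s₀, hs₀, h1⟩ := hT.2 hne x (ε / 2) (by positivity)
  obtain ⟨B, U, hsB, hBA, hB, hU, hUx⟩ := h s₀ hs₀
  refine ⟨U x, hUx, ?_⟩
  have : U x ∈ Metric.closedBall (T x) (ε / 2) :=
    hU.mem_tail hB hsB Metric.isClosed_closedBall fun s hs hle => by
      rw [Metric.mem_closedBall, dist_eq_norm]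
      exact (h1 s (hBA hs) hle).le
  rw [Metric.mem_closedBall, dist_comm] at this
  linarith

/-- The subfamily indexed by `S` induces a uniformly bounded skeleton on the closed set `Y`. -/
structure Sub (P : Γ → X →L[𝕜] X) (C : ℝ) (Y : Set X) (S : Set Γ) : Prop where
  closed : IsClosed Y
  zero : (0 : X) ∈ Y
  dir : Dir S
  sig : ∀ (c : ℕ → Γ) (a : Γ), Monotone c → (∀ n, c n ∈ S) → IsLUB (range c) a → a ∈ S
  bdd : ∀ s ∈ S, ‖P s‖ ≤ C
  inv : ∀ s ∈ S, ∀ y ∈ Y, P s y ∈ Y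
  cov : ∀ y ∈ Y, ∃ s ∈ S, P s y = y

theorem Sk.exists_sub (hP : Sk P) (hdir : ∀ s t : Γ, ∃ u, s ≤ u ∧ t ≤ u)
    (hcov : ∀ x, ∃ s, x ∈ range (P s)) : ∃ (C : ℝ) (S : Set Γ), Sub P C univ S := by
  have hu : Dir (univ : Set Γ) := fun s _ t _ => by
    obtain ⟨u, h⟩ := hdir s t
    exact ⟨u, trivial, h⟩
  have hcof : ∃ n : ℕ, ∀ s, ∃ t, s ≤ t ∧ ‖P t‖ ≤ n := by
    by_contra hcon
    push Not at hcon
    choose N hN using hcon
    obtain ⟨c, h1, -, h2⟩ := hu.dominate N fun _ => trivial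
    obtain ⟨a, ha⟩ := hP.sup c h1
    obtain ⟨n, hn⟩ := exists_nat_gt ‖P a‖
    exact absurd (hN n a ((h2 n).trans (ha.1 ⟨n, rfl⟩))) (not_lt.2 hn.le)
  obtain ⟨n, hn⟩ := hcof
  refine ⟨n, {s | ‖P s‖ ≤ n}, isClosed_univ, trivial, ?_, ?_, fun s hs => hs,
    fun _ _ _ _ => trivial, ?_⟩
  · intro s _ t _
    obtain ⟨u, h1, h2⟩ := hdir s t
    obtain ⟨v, h3, h4⟩ := hn u
    exact ⟨v, h4, h1.trans h3, h2.trans h3⟩
  · intro c a hc hcS ha
    refine ContinuousLinearMap.opNorm_le_bound _ (Nat.cast_nonneg n) fun x => ?_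
    refine le_of_tendsto' (hP.tendsto hc ha hcS x).norm fun k => ?_
    exact ((P (c k)).le_opNorm _).trans (mul_le_mul_of_nonneg_right (hcS k) (norm_nonneg _))
  · intro y _
    obtain ⟨s, x, rfl⟩ := hcov y
    obtain ⟨t, h1, h2⟩ := hn s
    exact ⟨t, h2, hP.le2 s t h1 x⟩

theorem Sub.lim_mem {Y : Set X} {S : Set Γ} (h : Sub P C Y S) {A : Set Γ} (hAS : A ⊆ S)
    (hA : Dir A) {T : X →L[𝕜] X} (hT : Lim P A T) {y : X} (hy : y ∈ Y) : T y ∈ Y :=
  hT.mem hA h.closed h.zero fun s hs => h.inv s (hAS hs) y hy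

/-- Along a monotone sequence dominating suitable indices, the supremum projection agrees with
the limit projection at countably many given points. -/
theorem Sub.exists_agree (hP : Sk P) {Y : Set X} {S : Set Γ} (h : Sub P C Y S) {A : Set Γ}
    (hAS : A ⊆ S) (hA : Dir A) (hne : A.Nonempty) {T : X →L[𝕜] X} (hT : Lim P A T)
    {Z : Set X} (hZ : Z.Countable) :
    ∃ (c : ℕ → Γ) (a : Γ), Monotone c ∧ (∀ n, c n ∈ A) ∧ IsLUB (range c) a ∧
      ∀ z ∈ Z, P a z = T z := by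
  have h1 := fun (z : X) (n : ℕ) => hT.2 hne z (1 / ((n : ℝ) + 1)) (by positivity)
  choose b hb1 hb2 using h1
  have hN : (⋃ z ∈ Z, range (b z)).Countable := hZ.biUnion fun z _ => countable_range _
  obtain ⟨c, hc1, hc2, hc3⟩ := hA.dominate' hne hN (by
    intro s hs
    simp only [mem_iUnion] at hs
    obtain ⟨z, -, n, rfl⟩ := hs
    exact hb1 z n)
  obtain ⟨a, ha⟩ := hP.sup c hc1
  refine ⟨c, a, hc1, hc2, ha, fun z hz => ?_⟩
  refine tendsto_nhds_unique (hP.tendsto hc1 ha (fun n => h.bdd _ (hAS (hc2 n))) z) ?_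
  rw [Metric.tendsto_atTop]
  intro ε hε
  obtain ⟨n, hn⟩ := exists_nat_one_div_lt hε
  obtain ⟨m, hm⟩ := hc3 (b z n) (by
    simp only [mem_iUnion]
    exact ⟨z, hz, n, rfl⟩)
  refine ⟨m, fun k hk => ?_⟩
  rw [dist_eq_norm]
  exact (hb2 z n (c k) (hc2 k) (hm.trans (hc1 hk))).trans hn

/-- The range of a limit projection carries an induced skeleton. -/
theorem Sub.range_step (hP : Sk P) {Y : Set X} {S : Set Γ} (h : Sub P C Y S) {B : Set Γ}
    (hBS : B ⊆ S) (hB : Dir B) (hne : B.Nonempty) {U : X →L[𝕜] X} (hU : Lim P B U) :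
    ∃ S' : Set Γ, B ⊆ S' ∧ Sub P C (Y ∩ {y | U y = y}) S' := by
  let S' : Set Γ := {s | s ∈ S ∧ ∃ N : Set Γ, N.Countable ∧ N ⊆ B ∧
    ∀ u, (∀ n ∈ N, n ≤ u) → s ≤ u}
  have hsup : ∀ (c : ℕ → Γ) (a : Γ), Monotone c → (∀ n, c n ∈ B) → IsLUB (range c) a →
      a ∈ S' := by
    intro c a hc hcB ha
    refine ⟨h.sig c a hc (fun n => hBS (hcB n)) ha, range c, countable_range c, ?_, ?_⟩
    · rintro _ ⟨n, rfl⟩; exact hcB n
    · intro u hu; exact ha.2 hu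
  have hdom : ∀ N : Set Γ, N.Countable → N ⊆ B → ∃ (c : ℕ → Γ) (a : Γ), Monotone c ∧
      (∀ n, c n ∈ B) ∧ IsLUB (range c) a ∧ ∀ n ∈ N, n ≤ a := by
    intro N hN hNB
    obtain ⟨c, hc1, hc2, hc3⟩ := hB.dominate' hne hN hNB
    obtain ⟨a, ha⟩ := hP.sup c hc1
    refine ⟨c, a, hc1, hc2, ha, fun n hn => ?_⟩
    obtain ⟨m, hm⟩ := hc3 n hn
    exact hm.trans (ha.1 ⟨m, rfl⟩)
  have hfix : IsClosed {y | U y = y} := isClosed_eq U.continuous continuous_id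
  refine ⟨S', fun b hb => ⟨hBS hb, {b}, countable_singleton b, singleton_subset_iff.2 hb,
    fun u hu => hu b rfl⟩, h.closed.inter hfix, ⟨h.zero, map_zero U⟩, ?_, ?_,
    fun s hs => h.bdd s hs.1, ?_, ?_⟩
  · rintro s ⟨-, N, hN1, hN2, hN3⟩ t ⟨-, N', hN1', hN2', hN3'⟩
    obtain ⟨c, a, h1, h2, h3, h4⟩ := hdom (N ∪ N') (hN1.union hN1') (union_subset hN2 hN2')
    exact ⟨a, hsup c a h1 h2 h3, hN3 a fun n hn => h4 n (Or.inl hn),
      hN3' a fun n hn => h4 n (Or.inr hn)⟩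
  · intro c a hc hcS ha
    refine ⟨h.sig c a hc (fun n => (hcS n).1) ha, ?_⟩
    choose N hN1 hN2 hN3 using fun n => (hcS n).2
    refine ⟨⋃ n, N n, countable_iUnion hN1, iUnion_subset hN2, fun u hu => ha.2 ?_⟩
    rintro _ ⟨n, rfl⟩
    exact hN3 n u fun m hm => hu m (mem_iUnion.2 ⟨n, hm⟩)
  · rintro s ⟨hsS, N, hN1, hN2, hN3⟩ y hy
    refine ⟨h.inv s hsS y hy.1, ?_⟩
    obtain ⟨c, a, h1, h2, h3, h4⟩ := hdom N hN1 hN2
    have h5 : P s y ∈ range (P a) := ⟨P s y, hP.le2 s a (hN3 a h4) y⟩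
    refine closure_minimal ?_ hfix (hP.lim c a h1 h3 h5)
    intro z hz
    obtain ⟨n, v, rfl⟩ := mem_iUnion.1 hz
    exact hU.apply_P hP hB (h2 n) v
  · intro y hy
    obtain ⟨c, a, h1, h2, h3, h4⟩ := h.exists_agree hP hBS hB hne hU (countable_singleton y)
    exact ⟨a, hsup c a h1 h2 h3, (h4 y rfl).trans hy.2⟩

/-- The kernel of a limit projection carries an induced skeleton. -/
theorem Sub.ker_step (hP : Sk P) {Y : Set X} {S : Set Γ} (h : Sub P C Y S) {A : Set Γ}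
    (hAS : A ⊆ S) (hA : Dir A) {T : X →L[𝕜] X} (hT : Lim P A T) :
    ∃ S' : Set Γ, Sub P C (Y ∩ {y | T y = 0}) S' := by
  have hker : IsClosed {y | T y = 0} := isClosed_eq T.continuous continuous_const
  rcases A.eq_empty_or_nonempty with hA0 | hne
  · refine ⟨S, ?_⟩
    have : Y ∩ {y | T y = 0} = Y := by
      rw [hT.1 hA0]; simp
    rw [this]; exact h
  let S' : Set Γ := {s | s ∈ S ∧ ∀ z, T z = 0 → T (P s z) = 0}
  have hkey : ∀ t ∈ S, ∃ a ∈ S, (∀ z, P a (P t z) = T (P t z)) ∧ ∀ z, T z = 0 → P a z = 0 := by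
    intro t _
    obtain ⟨Z, hZ1, hZ2⟩ := hP.sep t
    obtain ⟨c, a, h1, h2, h3, h4⟩ := h.exists_agree hP hAS hA hne hT hZ1
    refine ⟨a, h.sig c a h1 (fun n => hAS (h2 n)) h3, fun z => ?_, fun z hz => ?_⟩
    · exact closure_minimal (t := {w | P a w = T w}) h4
        (isClosed_eq (P a).continuous T.continuous) (hZ2 ⟨z, rfl⟩)
    · refine tendsto_nhds_unique (hP.tendsto h1 h3 (fun n => h.bdd _ (hAS (h2 n))) z) ?_
      have : (fun n => P (c n) z) = fun _ => 0 := by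
        funext n
        rw [← hT.P_apply hP hA (h2 n) z, hz, map_zero]
      rw [this]; exact tendsto_const_nhds
  have hcof : ∀ t ∈ S, ∃ s ∈ S', t ≤ s := by
    intro t ht
    have h1 : ∀ t : S, ∃ (a : Γ) (u : S), a ∈ S ∧ (∀ z, P a (P t.1 z) = T (P t.1 z)) ∧
        (∀ z, T z = 0 → P a z = 0) ∧ t.1 ≤ u.1 ∧ a ≤ u.1 := by
      intro t
      obtain ⟨a, ha, h2, h3⟩ := hkey t.1 t.2
      obtain ⟨u, hu, h4, h5⟩ := h.dir t.1 t.2 a ha
      exact ⟨a, ⟨u, hu⟩, ha, h2, h3, h4, h5⟩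
    choose a nx ha1 ha2 ha3 ha4 ha5 using h1
    let c : ℕ → S := fun n => Nat.rec ⟨t, ht⟩ (fun _ s => nx s) n
    have hmono : Monotone fun n => (c n).1 := monotone_nat_of_le_succ fun n => ha4 (c n)
    obtain ⟨s, hs⟩ := hP.sup _ hmono
    refine ⟨s, ⟨h.sig _ s hmono (fun n => (c n).2) hs, fun z hz => ?_⟩, hs.1 ⟨0, rfl⟩⟩
    have h2 := hP.tendsto hmono hs (fun n => h.bdd _ (c n).2) z
    refine tendsto_nhds_unique ((T.continuous.tendsto _).comp h2) ?_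
    have h3 : Tendsto (fun n => C * ‖P (c n).1 z - P s z‖) atTop (𝓝 0) := by
      have := (tendsto_iff_norm_sub_tendsto_zero.1 h2).const_mul C
      rwa [mul_zero] at this
    refine squeeze_zero_norm (fun n => ?_) h3
    have h4 : a (c n) ≤ s := (ha5 (c n)).trans (hs.1 ⟨n + 1, rfl⟩)
    have h5 : T (P (c n).1 z) = P (a (c n)) (P (c n).1 z - P s z) := by
      rw [map_sub, ha2, hP.le1 _ _ h4, ha3 _ z hz, sub_zero]
    rw [Function.comp_apply, h5]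
    exact ((P _).le_opNorm _).trans
      (mul_le_mul_of_nonneg_right (h.bdd _ (ha1 (c n))) (norm_nonneg _))
  refine ⟨S', h.closed.inter hker, ⟨h.zero, map_zero T⟩, ?_, ?_, fun s hs => h.bdd s hs.1, ?_, ?_⟩
  · intro s hs t ht
    obtain ⟨u, hu, h1, h2⟩ := h.dir s hs.1 t ht.1
    obtain ⟨v, hv, h3⟩ := hcof u hu
    exact ⟨v, hv, h1.trans h3, h2.trans h3⟩
  · intro c a hc hcS ha
    refine ⟨h.sig c a hc (fun n => (hcS n).1) ha, fun z hz => ?_⟩
    have h2 := hP.tendsto hc ha (fun n => h.bdd _ (hcS n).1) z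
    refine tendsto_nhds_unique ((T.continuous.tendsto _).comp h2) ?_
    have : (T ∘ fun n => P (c n) z) = fun _ => 0 := by
      funext n
      exact (hcS n).2 z hz
    rw [this]; exact tendsto_const_nhds
  · intro s hs y hy
    exact ⟨h.inv s hs.1 y hy.1, hs.2 y hy.2⟩
  · intro y hy
    obtain ⟨t, ht, h1⟩ := h.cov y hy.1
    obtain ⟨s, hs, h2⟩ := hcof t ht
    refine ⟨s, hs, ?_⟩
    rw [← h1, hP.le2 t s h2]

/-- A monotone map from finite sets into a directed set dominating given elements. -/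
theorem Dir.exists_monotone_finset {S : Set Γ} (hS : Dir S) (hne : S.Nonempty) {K : Type*}
    (t : K → Γ) (ht : ∀ k, t k ∈ S) :
    ∃ σ : Finset K → Γ, Monotone σ ∧ (∀ F, σ F ∈ S) ∧ ∀ F, ∀ k ∈ F, t k ≤ σ F := by
  classical
  have hub : ∀ N : Finset S, ∃ u : S, ∀ n ∈ N, n ≤ u := by
    intro N
    induction N using Finset.induction_on with
    | empty => exact ⟨⟨hne.some, hne.some_mem⟩, by simp⟩
    | insert a N _ ih =>
      obtain ⟨u, hu⟩ := ih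
      obtain ⟨v, hv, h1, h2⟩ := hS a.1 a.2 u.1 u.2
      refine ⟨⟨v, hv⟩, fun n hn => ?_⟩
      rcases Finset.mem_insert.1 hn with h | h
      · rw [h]; exact h1
      · exact (hu n h).trans h2
  choose ub hub using hub
  let σ : Finset K → S := Finset.strongInduction fun F ih =>
    ub (F.image (fun k => (⟨t k, ht k⟩ : S)) ∪
      F.ssubsets.attach.image fun G => ih G.1 (Finset.mem_ssubsets.1 G.2))
  have hσ : ∀ F, σ F = ub (F.image (fun k => (⟨t k, ht k⟩ : S)) ∪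
      F.ssubsets.attach.image fun G => σ G.1) := fun F => Finset.strongInduction_eq _ F
  refine ⟨fun F => (σ F).1, ?_, fun F => (σ F).2, ?_⟩
  · intro G F hGF
    rcases hGF.lt_or_eq with h | h
    · show σ G ≤ σ F
      rw [hσ F]
      apply hub
      refine Finset.mem_union_right _ (Finset.mem_image.2 ⟨⟨G, Finset.mem_ssubsets.2 h⟩, ?_, rfl⟩)
      exact Finset.mem_attach _ _
    · rw [h]
  · intro F k hk
    show (⟨t k, ht k⟩ : S) ≤ σ F
    rw [hσ F]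
    apply hub
    exact Finset.mem_union_left _ (Finset.mem_image.2 ⟨k, hk, rfl⟩)

end Pool.Agent.Lib.MP_14477d_an
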