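import Mathlib
import Pool.Agent.Lib.MP_14477d_an.Skeleton

/-!
Decomposition of a space with a projectional skeleton into separable blocks, by induction on
the density.
-/

set_option autoImplicit false

namespace Pool.Agent.Lib.MP_14477d_an

open Set Filter Topology

universe u

variable {𝕜 : Type*} [RCLike 𝕜] {X : Type u} [NormedAddCommGroup X] [NormedSpace 𝕜 X]

open Classical in
/-- A decomposition of the projection `π` into separable blocks `R i`, ranked by ordinals, such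
that every initial segment of blocks is cut out by a bounded operator. -/
structure Blocks (π : X →L[𝕜] X) {J : Type u} (rk : J → Ordinal.{u}) (R : J → X →L[𝕜] X) :
    Prop where
  sep : ∀ i, TopologicalSpace.IsSeparable (range (R i))
  idem : ∀ i x, R i (R i x) = R i x
  orth : ∀ i j, i ≠ j → ∀ x, R i (R j x) = 0
  left : ∀ i x, π (R i x) = R i x
  right : ∀ i x, R i (π x) = R i x
  dense : ∀ x, π x ∈ closure (Submodule.span 𝕜 (range fun i => R i x) : Set X)
  init : ∀ α : Ordinal.{u}, ∃ Q : X →L[𝕜] X, (∀ x, Q (π x) = Q x) ∧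
    ∀ i x, Q (R i x) = if rk i < α then R i x else 0

theorem Blocks.glue {π : X →L[𝕜] X} {K : Type u} [LinearOrder K] [WellFoundedLT K]
    (ρ T : K → X →L[𝕜] X) (hπ : ∀ x, π (π x) = π x)
    (h1 : ∀ k x, π (ρ k x) = ρ k x) (h2 : ∀ k x, ρ k (π x) = ρ k x)
    (h3 : ∀ k l, k ≠ l → ∀ x, ρ k (ρ l x) = 0)
    (h4 : ∀ x, π x ∈ closure (Submodule.span 𝕜 (range fun k => ρ k x) : Set X))
    (h5 : ∀ k x, T k (π x) = T k x)
    (h6 : ∀ k l x, l < k → T k (ρ l x) = ρ l x) (h7 : ∀ k l x, k ≤ l → T k (ρ l x) = 0)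
    {J : K → Type u} (rk : ∀ k, J k → Ordinal.{u}) (R : ∀ k, J k → X →L[𝕜] X)
    (hB : ∀ k, Blocks (ρ k) (rk k) (R k)) (ν o : K → Ordinal.{u})
    (hν : ∀ k i, rk k i < ν k) (hinj : ∀ k, Function.Injective (rk k))
    (ho : ∀ k l, k < l → o k + ν k ≤ o l) :
    Blocks π (fun j : (Σ k, J k) => o j.1 + rk j.1 j.2) (fun j => R j.1 j.2) ∧
      Function.Injective (fun j : (Σ k, J k) => o j.1 + rk j.1 j.2) := by
  classical
  have hlt : ∀ k i, o k + rk k i < o k + ν k := fun k i => by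
    rw [add_lt_add_iff_left]; exact hν k i
  refine ⟨⟨fun j => (hB j.1).sep j.2, fun j => (hB j.1).idem j.2, ?_, ?_, ?_, ?_, ?_⟩, ?_⟩
  · rintro ⟨k, i⟩ ⟨l, j⟩ hne x
    by_cases hkl : k = l
    · subst hkl
      exact (hB k).orth i j (fun h => hne (by rw [h])) x
    · show R k i (R l j x) = 0
      rw [← (hB k).right, ← (hB l).left, h3 k l hkl, map_zero]
  · rintro ⟨k, i⟩ x
    show π (R k i x) = R k i x
    rw [← (hB k).left, h1]
  · rintro ⟨k, i⟩ x
    show R k i (π x) = R k i x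
    rw [← (hB k).right, h2, (hB k).right]
  · intro x
    refine closure_minimal ?_ isClosed_closure (h4 x)
    show _ ≤ ((Submodule.span 𝕜 (range fun j : (Σ k, J k) => R j.1 j.2 x)).topologicalClosure :
      Set X)
    refine SetLike.coe_subset_coe.2 (Submodule.span_le.2 ?_)
    rintro _ ⟨k, rfl⟩
    refine closure_mono (SetLike.coe_subset_coe.2 (Submodule.span_mono ?_)) ((hB k).dense x)
    rintro _ ⟨i, rfl⟩
    exact ⟨⟨k, i⟩, rfl⟩
  · intro α
    by_cases hex : ∃ k, α < o k + ν k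
    · let k := wellFounded_lt.min {k | α < o k + ν k} hex
      have hk1 : α < o k + ν k := wellFounded_lt.min_mem {k | α < o k + ν k} hex
      have hk2 : ∀ l < k, o l + ν l ≤ α := fun l hl => by
        by_contra hcon
        exact wellFounded_lt.not_lt_min {k | α < o k + ν k} (not_le.1 hcon) hl
      obtain ⟨Q, hQ1, hQ2⟩ := (hB k).init (α - o k)
      refine ⟨T k + Q, fun x => ?_, ?_⟩
      · rw [_root_.add_apply, _root_.add_apply, h5, ← hQ1 (π x), h2, hQ1]
      · rintro ⟨l, j⟩ x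
        show T k (R l j x) + Q (R l j x) = if o l + rk l j < α then R l j x else 0
        rcases lt_trichotomy l k with hlk | hlk | hlk
        · rw [if_pos ((hlt l j).trans_le (hk2 l hlk)), ← hQ1, ← (hB l).left, h6 k l _ hlk,
            h3 k l hlk.ne', map_zero, add_zero]
        · subst hlk
          rw [hQ2, ← (hB k).left j x, h7 k k _ le_rfl, zero_add]
          simp only [Ordinal.lt_sub]
        · have : ¬ o l + rk l j < α :=
            not_lt.2 (hk1.le.trans ((ho k l hlk).trans le_self_add))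
          rw [if_neg this, ← hQ1, ← (hB l).left, h7 k l _ hlk.le, h3 k l hlk.ne, map_zero,
            add_zero]
    · push Not at hex
      refine ⟨π, hπ, ?_⟩
      rintro ⟨l, j⟩ x
      show π (R l j x) = if o l + rk l j < α then R l j x else 0
      rw [if_pos ((hlt l j).trans_le (hex l)), ← (hB l).left, h1]
  · rintro ⟨k, i⟩ ⟨l, j⟩ h
    simp only at h
    rcases lt_trichotomy k l with hkl | hkl | hkl
    · exact absurd h ((hlt k i).trans_le ((ho k l hkl).trans le_self_add)).ne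
    · subst hkl
      rw [hinj k (add_left_cancel h)]
    · exact absurd h ((hlt l j).trans_le ((ho l k hkl).trans le_self_add)).ne'

theorem Blocks.single {π : X →L[𝕜] X} (hπ : ∀ x, π (π x) = π x)
    (hsep : TopologicalSpace.IsSeparable (range π)) :
    Blocks π (fun _ : PUnit.{u + 1} => 0) (fun _ => π) := by
  classical
  refine ⟨fun _ => hsep, fun _ => hπ, fun i j h => absurd (Subsingleton.elim i j) h,
    fun _ => hπ, fun _ => hπ, fun x => ?_, fun α => ?_⟩
  · exact subset_closure (Submodule.subset_span ⟨PUnit.unit, rfl⟩)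
  · by_cases h : 0 < α
    · exact ⟨π, hπ, fun _ x => by rw [if_pos h, hπ]⟩
    · exact ⟨0, fun _ => rfl, fun _ x => by rw [if_neg h]; rfl⟩

variable {Γ : Type*} [PartialOrder Γ] {P : Γ → X →L[𝕜] X} {C : ℝ}

theorem Sk.exists_blocks [CompleteSpace X] (hP : Sk P) (κ : Cardinal.{u}) :
    Cardinal.aleph0 ≤ κ → ∀ (π : X →L[𝕜] X) (S : Set Γ), (∀ x, π (π x) = π x) →
      Sub P C {y | π y = y} S → (∃ D : Set X, Cardinal.mk D ≤ κ ∧ {y | π y = y} ⊆ closure D) →
      ∃ (J : Type u) (rk : J → Ordinal.{u}) (R : J → X →L[𝕜] X),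
        Blocks π rk R ∧ Function.Injective rk ∧ ∀ j, rk j < κ.ord := by
  classical
  induction κ using WellFoundedLT.induction with
  | ind κ IH =>
  intro hκ π S hπ hS ⟨D, hD1, hD2⟩
  rcases hκ.eq_or_lt with hκ0 | hκ0
  · subst hκ0
    refine ⟨PUnit, fun _ => 0, fun _ => π, Blocks.single hπ ⟨D, ?_, ?_⟩,
      fun i j _ => Subsingleton.elim i j, fun _ => ?_⟩
    · exact Cardinal.le_aleph0_iff_set_countable.1 hD1
    · rintro _ ⟨x, rfl⟩; exact hD2 (hπ x)
    · rw [Cardinal.ord_aleph0]; exact Ordinal.omega0_pos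
  let K := κ.ord.ToType
  obtain ⟨e⟩ : Nonempty (D ↪ K) := (Cardinal.le_def _ _).1 (by rwa [Cardinal.mk_ord_toType])
  let y : K → X := Function.extend e Subtype.val 0
  have hy : ∀ d ∈ D, ∃ k, y k = d := fun d hd => ⟨e ⟨d, hd⟩, e.injective.extend_apply _ _ _⟩
  choose t ht1 ht2 using fun k => hS.cov (π (y k)) (hπ (y k))
  have hSne : S.Nonempty := by
    obtain ⟨s, hs, -⟩ := hS.cov 0 hS.zero
    exact ⟨s, hs⟩
  obtain ⟨σ, hσ1, hσ2, hσ3⟩ := hS.dir.exists_monotone_finset hSne t ht1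
  let A : Set K → Set Γ := fun L => σ '' {F | F.Nonempty ∧ (F : Set K) ⊆ L}
  have hAS : ∀ L, A L ⊆ S := by
    rintro L _ ⟨F, -, rfl⟩; exact hσ2 F
  have hAdir : ∀ L, Dir (A L) := by
    rintro L _ ⟨F, hF, rfl⟩ _ ⟨G, hG, rfl⟩
    refine ⟨σ (F ∪ G), ⟨F ∪ G, ⟨hF.1.mono Finset.subset_union_left, ?_⟩, rfl⟩,
      hσ1 Finset.subset_union_left, hσ1 Finset.subset_union_right⟩
    rw [Finset.coe_union]; exact union_subset hF.2 hG.2
  have hAmono : ∀ L L', L ⊆ L' → A L ⊆ A L' := by
    rintro L L' h _ ⟨F, hF, rfl⟩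
    exact ⟨F, ⟨hF.1, hF.2.trans h⟩, rfl⟩
  have hAsing : ∀ L k, k ∈ L → σ {k} ∈ A L := fun L k hk =>
    ⟨{k}, ⟨Finset.singleton_nonempty k, by simpa using hk⟩, rfl⟩
  choose T hT using fun L => hP.exists_lim (hAdir L) fun s hs => hS.bdd s (hAS L hs)
  have hTπ : ∀ L x, π (T L (π x)) = T L (π x) := fun L x =>
    hS.lim_mem (hAS L) (hAdir L) (hT L) (hπ x)
  have hT1 : ∀ L L', L ⊆ L' → ∀ z, T L (T L' z) = T L z := fun L L' h z =>
    (hT L).le1 hP (hAdir L) (hT L') (hAdir L') (hAmono L L' h) z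
  have hT2 : ∀ L L', L ⊆ L' → ∀ z, T L' (T L z) = T L z := fun L L' h z =>
    (hT L).le2 hP (hAdir L) (hT L') (hAdir L') (hAmono L L' h) z
  let ρ : K → X →L[𝕜] X := fun k => (T (Iic k)).comp π - (T (Iio k)).comp π
  have hρ : ∀ k x, ρ k x = T (Iic k) (π x) - T (Iio k) (π x) := fun k x => rfl
  have hρ1 : ∀ k x, π (ρ k x) = ρ k x := fun k x => by rw [hρ, map_sub, hTπ, hTπ]
  have hρ2 : ∀ k x, ρ k (π x) = ρ k x := fun k x => by rw [hρ, hρ, hπ]
  have hbig : ∀ L k x, Iic k ⊆ L → T L (ρ k x) = ρ k x := fun L k x h => by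
    rw [hρ, map_sub, hT2 _ _ h, hT2 _ _ (Iio_subset_Iic_self.trans h)]
  have hsmall : ∀ L k x, L ⊆ Iio k → T L (ρ k x) = 0 := fun L k x h => by
    rw [hρ, map_sub, hT1 _ _ h, hT1 _ _ (h.trans Iio_subset_Iic_self), sub_self]
  have hρidem : ∀ k x, ρ k (ρ k x) = ρ k x := fun k x => by
    rw [hρ k (ρ k x), hρ1, hbig _ k x subset_rfl, hsmall _ k x subset_rfl, sub_zero]
  have hρorth : ∀ k l, k ≠ l → ∀ x, ρ k (ρ l x) = 0 := fun k l hkl x => by
    rw [hρ k (ρ l x), hρ1]
    rcases lt_or_gt_of_ne hkl with h | h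
    · rw [hsmall _ l x (Iic_subset_Iio.2 h), hsmall _ l x (Iio_subset_Iio h.le), sub_self]
    · rw [hbig _ l x (Iic_subset_Iic.2 h.le), hbig _ l x (Iic_subset_Iio.2 h), sub_self]
  have hfix : ∀ k, {z | ρ k z = z} =
      ({z | π z = z} ∩ {z | T (Iic k) z = z}) ∩ {z | T (Iio k) z = 0} := by
    intro k
    ext z
    constructor
    · intro hz
      have hz' : ρ k z = z := hz
      refine ⟨⟨?_, ?_⟩, ?_⟩
      · show π z = z
        rw [← hz', hρ1]
      · show T (Iic k) z = z
        rw [← hz', hbig _ k z subset_rfl]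
      · show T (Iio k) z = 0
        rw [← hz', hsmall _ k z subset_rfl]
    · rintro ⟨⟨h1, h2⟩, h3⟩
      show ρ k z = z
      rw [hρ, h1, h2, h3, sub_zero]
  -- the cardinals bounding the densities of the pieces
  let μ : K → Cardinal.{u} := fun k => max Cardinal.aleph0 (Cardinal.mk (Iic k))
  have hμ1 : ∀ k, μ k < κ := by
    intro k
    refine max_lt hκ0 ?_
    rw [← Iio_insert]
    refine lt_of_le_of_lt Cardinal.mk_insert_le ?_
    exact Cardinal.add_lt_of_lt hκ (Cardinal.mk_Iio_toType_ord_lt k)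
      (Cardinal.one_lt_aleph0.trans_le hκ)
  have hμ2 : Monotone μ := fun k l h =>
    max_le_max le_rfl (Cardinal.mk_le_mk_of_subset (Iic_subset_Iic.2 h))
  choose Z hZ1 hZ2 using hP.sep
  have hpiece : ∀ k, ∃ (J : Type u) (rk : J → Ordinal.{u}) (R : J → X →L[𝕜] X),
      Blocks (ρ k) rk R ∧ Function.Injective rk ∧ ∀ j, rk j < (μ k).ord := by
    intro k
    obtain ⟨S1, hS1, hS1'⟩ := hS.range_step hP (hAS (Iic k)) (hAdir (Iic k))
      ⟨_, hAsing _ k self_mem_Iic⟩ (hT (Iic k))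
    obtain ⟨S2, hS2⟩ := hS1'.ker_step hP ((hAmono _ _ Iio_subset_Iic_self).trans hS1)
      (hAdir (Iio k)) (hT (Iio k))
    rw [← hfix] at hS2
    refine IH (μ k) (hμ1 k) (le_max_left _ _) (ρ k) S2 (hρidem k) hS2
      ⟨⋃ l : List (Iic k), Z (σ (l.map Subtype.val).toFinset), ?_, ?_⟩
    · refine (Cardinal.mk_iUnion_le _).trans ?_
      have h1 : ⨆ l : List (Iic k), Cardinal.mk (Z (σ (l.map Subtype.val).toFinset)) ≤ μ k :=
        ciSup_le' fun l =>
          (Cardinal.le_aleph0_iff_set_countable.2 (hZ1 _)).trans (le_max_left _ _)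
      refine (mul_le_mul' (Cardinal.mk_list_le_max _) h1).trans ?_
      exact (Cardinal.mul_eq_self (le_max_left _ _)).le
    · intro z hz
      rw [hfix] at hz
      have h1 : T (Iic k) z = z := hz.1.2
      rw [← h1]
      refine (hT (Iic k)).mem_tail (hAdir _) (hAsing _ k self_mem_Iic) isClosed_closure ?_
      rintro _ ⟨F, hF, rfl⟩ -
      refine closure_mono ?_ (hZ2 (σ F) ⟨z, rfl⟩)
      have h2 : F = ((F.attach.toList.map fun a => (⟨a.1, hF.2 a.2⟩ : Iic k)).map
          Subtype.val).toFinset := by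
        ext a; simp
      exact subset_iUnion_of_subset (F.attach.toList.map fun a => (⟨a.1, hF.2 a.2⟩ : Iic k))
        (by rw [← h2])
  choose J rk R hB hinj hrk using hpiece
  -- density of the outer blocks
  have hdense : ∀ x, π x ∈ closure (Submodule.span 𝕜 (range fun k => ρ k x) : Set X) := by
    intro x
    let M : Submodule 𝕜 X := (Submodule.span 𝕜 (range fun k => ρ k x)).topologicalClosure
    have hMc : IsClosed (M : Set X) := Submodule.isClosed_topologicalClosure _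
    have hcover : ∀ L : Set K, (∀ m ∈ L, Iic m ⊆ L ∧ T (Iic m) (π x) ∈ M) → T L (π x) ∈ M := by
      intro L hL
      refine (hT L).mem_of_cover hMc M.zero_mem ?_
      rintro _ ⟨F, hF, rfl⟩
      have hm := hL (F.max' hF.1) (hF.2 (F.max'_mem hF.1))
      exact ⟨A (Iic (F.max' hF.1)), T (Iic (F.max' hF.1)),
        ⟨F, ⟨hF.1, fun a ha => F.le_max' a ha⟩, rfl⟩, hAmono _ _ hm.1, hAdir _, hT _, hm.2⟩
    have hall : ∀ k, T (Iic k) (π x) ∈ M := by
      intro k
      induction k using WellFoundedLT.induction with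
      | ind k ih =>
      have h1 : T (Iic k) (π x) = ρ k x + T (Iio k) (π x) := by rw [hρ]; abel
      rw [h1]
      refine M.add_mem (subset_closure (Submodule.subset_span ⟨k, rfl⟩)) ?_
      exact hcover _ fun m hm => ⟨Iic_subset_Iio.2 hm, ih m hm⟩
    have huniv : T univ (π x) = π x := by
      have h1 : π (π x) ∈ closure {z | T univ z = z} := by
        refine map_mem_closure π.continuous (hD2 (hπ x)) fun d hd => ?_
        obtain ⟨k, rfl⟩ := hy d hd
        have h2 : P (σ {k}) (π (y k)) = π (y k) := by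
          rw [← ht2 k, hP.le2 _ _ (hσ3 {k} k (Finset.mem_singleton_self k))]
        show T univ (π (y k)) = π (y k)
        rw [← h2]
        exact (hT univ).apply_P hP (hAdir _) (hAsing _ k trivial) _
      rw [(isClosed_eq (T univ).continuous continuous_id').closure_eq, hπ] at h1
      exact h1
    rw [← huniv]
    exact hcover univ fun m _ => ⟨subset_univ _, hall m⟩
  let tp : K → Ordinal.{u} := fun k => Ordinal.typein (α := K) (· < ·) k
  have hglue := Blocks.glue (π := π) ρ (fun k => (T (Iio k)).comp π) hπ hρ1 hρ2 hρorth hdense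
    (fun k x => by simp only [ContinuousLinearMap.comp_apply, hπ])
    (fun k l x h => by
      rw [ContinuousLinearMap.comp_apply, hρ1, hbig _ l x (Iic_subset_Iio.2 h)])
    (fun k l x h => by
      rw [ContinuousLinearMap.comp_apply, hρ1, hsmall _ l x (Iio_subset_Iio h)])
    rk R hB (fun k => (μ k).ord) (fun k => (μ k).ord * tp k) hrk hinj
    (fun k l h => by
      have h1 : tp k + 1 ≤ tp l :=
        Order.add_one_le_of_lt ((Ordinal.typein_lt_typein (α := K) (· < ·)).2 h)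
      calc (μ k).ord * tp k + (μ k).ord = (μ k).ord * (tp k + 1) := by rw [mul_add, mul_one]
        _ ≤ (μ l).ord * tp l := mul_le_mul' (Cardinal.ord_le_ord.2 (hμ2 h.le)) h1)
  refine ⟨Σ k, J k, _, _, hglue.1, hglue.2, ?_⟩
  rintro ⟨k, i⟩
  have h1 : (μ k).ord < κ.ord := Cardinal.ord_lt_ord.2 (hμ1 k)
  exact Ordinal.isPrincipal_add_ord hκ
    (Ordinal.isPrincipal_mul_ord hκ h1 (Ordinal.typein_lt_self k)) ((hrk k i).trans h1)

end Pool.Agent.Lib.MP_14477d_an
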