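import Mathlib

/-!
Markushevich bases of separable normed spaces, and of the range of a projection with
separable range.
-/

set_option autoImplicit false

namespace Pool.Agent.Lib.MP_14477d_an

open Set

variable {𝕜 : Type*} [RCLike 𝕜]

section sep

variable {Y : Type*} [NormedAddCommGroup Y] [NormedSpace 𝕜 Y]

/-- A set of pairs (vector, functional) is biorthogonal. -/
def Biorth (B : Set (Y × (Y →L[𝕜] 𝕜))) : Prop :=
  (∀ p ∈ B, p.2 p.1 = 1) ∧ ∀ p ∈ B, ∀ q ∈ B, p ≠ q → p.2 q.1 = 0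

theorem Biorth.sum_vec {B : Finset (Y × (Y →L[𝕜] 𝕜))} (hB : Biorth (B : Set (Y × (Y →L[𝕜] 𝕜))))
    (y : Y) {p : Y × (Y →L[𝕜] 𝕜)} (hp : p ∈ B) :
    p.2 (y - ∑ q ∈ B, q.2 y • q.1) = 0 := by
  classical
  rw [map_sub, map_sum, Finset.sum_eq_single p]
  · rw [map_smul, hB.1 p hp]; simp
  · intro q hq hne
    rw [map_smul, hB.2 p hp q hq hne.symm]; simp
  · intro h; exact absurd hp h

theorem Biorth.sum_fun {B : Finset (Y × (Y →L[𝕜] 𝕜))} (hB : Biorth (B : Set (Y × (Y →L[𝕜] 𝕜))))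
    (g : Y →L[𝕜] 𝕜) {p : Y × (Y →L[𝕜] 𝕜)} (hp : p ∈ B) :
    (g - ∑ q ∈ B, g q.1 • q.2) p.1 = 0 := by
  classical
  rw [_root_.sub_apply, _root_.sum_apply, Finset.sum_eq_single p]
  · rw [_root_.smul_apply, hB.1 p hp]; simp
  · intro q hq hne
    rw [_root_.smul_apply, hB.2 q hq p hp hne]; simp
  · intro h; exact absurd hp h

theorem Biorth.adjoin {B : Set (Y × (Y →L[𝕜] 𝕜))} (hB : Biorth B) {y : Y} {g : Y →L[𝕜] 𝕜}
    (h1 : g y = 1) (h2 : ∀ p ∈ B, p.2 y = 0) (h3 : ∀ p ∈ B, g p.1 = 0) :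
    Biorth (insert (y, g) B) := by
  constructor
  · rintro p (rfl | hp)
    · exact h1
    · exact hB.1 p hp
  · rintro p (rfl | hp) q (rfl | hq) hne
    · exact absurd rfl hne
    · exact h3 q hq
    · exact h2 p hp
    · exact hB.2 p hp q hq hne

theorem Biorth.step_vec {B : Finset (Y × (Y →L[𝕜] 𝕜))}
    (hB : Biorth (B : Set (Y × (Y →L[𝕜] 𝕜)))) (y : Y) :
    ∃ B' : Finset (Y × (Y →L[𝕜] 𝕜)), B ⊆ B' ∧ Biorth (B' : Set (Y × (Y →L[𝕜] 𝕜))) ∧
      y ∈ Submodule.span 𝕜 (Prod.fst '' (B' : Set (Y × (Y →L[𝕜] 𝕜)))) := by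
  classical
  have hsum : ∀ B' : Finset (Y × (Y →L[𝕜] 𝕜)), B ⊆ B' →
      ∑ q ∈ B, q.2 y • q.1 ∈ Submodule.span 𝕜 (Prod.fst '' (B' : Set (Y × (Y →L[𝕜] 𝕜)))) := by
    intro B' hB'
    refine Submodule.sum_mem _ fun q hq => Submodule.smul_mem _ _ (Submodule.subset_span ?_)
    exact ⟨q, hB' hq, rfl⟩
  set y' := y - ∑ q ∈ B, q.2 y • q.1 with hy'
  by_cases h0 : y' = 0
  · refine ⟨B, subset_rfl, hB, ?_⟩
    have : y = ∑ q ∈ B, q.2 y • q.1 := sub_eq_zero.1 h0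
    rw [this]; exact hsum B subset_rfl
  · obtain ⟨g, hg⟩ := SeparatingDual.exists_eq_one (R := 𝕜) h0
    have h2 : ∀ p ∈ B, p.2 y' = 0 := fun p hp => hB.sum_vec y hp
    refine ⟨insert (y', g - ∑ q ∈ B, g q.1 • q.2) B, Finset.subset_insert _ _, ?_, ?_⟩
    · rw [Finset.coe_insert]
      refine hB.adjoin ?_ h2 fun p hp => hB.sum_fun g hp
      rw [_root_.sub_apply, _root_.sum_apply, hg, Finset.sum_eq_zero]
      · simp
      · intro q hq
        rw [_root_.smul_apply, h2 q hq]; simp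
    · have : y = y' + ∑ q ∈ B, q.2 y • q.1 := by rw [hy']; abel
      rw [this]
      refine Submodule.add_mem _ (Submodule.subset_span ?_) (hsum _ (Finset.subset_insert _ _))
      exact ⟨_, Finset.mem_coe.2 (Finset.mem_insert_self _ _), rfl⟩

theorem Biorth.step_fun {B : Finset (Y × (Y →L[𝕜] 𝕜))}
    (hB : Biorth (B : Set (Y × (Y →L[𝕜] 𝕜)))) (g : Y →L[𝕜] 𝕜) :
    ∃ B' : Finset (Y × (Y →L[𝕜] 𝕜)), B ⊆ B' ∧ Biorth (B' : Set (Y × (Y →L[𝕜] 𝕜))) ∧
      ∀ z : Y, (∀ p ∈ B', p.2 z = 0) → g z = 0 := by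
  classical
  set g' := g - ∑ q ∈ B, g q.1 • q.2 with hg'
  have hsum : ∀ z : Y, (∀ p ∈ B, p.2 z = 0) → g' z = g z := by
    intro z hz
    rw [hg', _root_.sub_apply, _root_.sum_apply, Finset.sum_eq_zero]
    · simp
    · intro q hq
      rw [_root_.smul_apply, hz q hq]; simp
  by_cases h0 : g' = 0
  · refine ⟨B, subset_rfl, hB, fun z hz => ?_⟩
    rw [← hsum z hz, h0]; rfl
  · obtain ⟨y0, hy0⟩ : ∃ y0, g' y0 ≠ 0 := by
      by_contra hcon
      push Not at hcon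
      exact h0 (ContinuousLinearMap.ext hcon)
    set y := (g' y0)⁻¹ • y0 with hy
    have hy1 : g' y = 1 := by rw [hy, map_smul, smul_eq_mul, inv_mul_cancel₀ hy0]
    have h3 : ∀ p ∈ B, g' p.1 = 0 := fun p hp => hB.sum_fun g hp
    refine ⟨insert (y - ∑ q ∈ B, q.2 y • q.1, g') B, Finset.subset_insert _ _, ?_, ?_⟩
    · rw [Finset.coe_insert]
      refine hB.adjoin ?_ (fun p hp => hB.sum_vec y hp) h3
      rw [map_sub, map_sum, hy1, Finset.sum_eq_zero]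
      · simp
      · intro q hq
        rw [map_smul, h3 q hq]; simp
    · intro z hz
      rw [← hsum z fun p hp => hz p (Finset.mem_insert_of_mem hp)]
      exact hz _ (Finset.mem_insert_self _ _)

/-- Markushevich's theorem: every separable normed space has a Markushevich basis. -/
theorem exists_markushevich_of_separable [TopologicalSpace.SeparableSpace Y] :
    ∃ B : Set (Y × (Y →L[𝕜] 𝕜)), Biorth B ∧
      Dense (Submodule.span 𝕜 (Prod.fst '' B) : Set Y) ∧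
      ∀ z : Y, (∀ p ∈ B, p.2 z = 0) → z = 0 := by
  classical
  obtain ⟨y, hy⟩ := TopologicalSpace.exists_dense_seq Y
  have hg : ∀ n, ∃ g : Y →L[𝕜] 𝕜, ‖g‖ ≤ 1 ∧ g (y n) = ‖y n‖ := fun n =>
    exists_dual_vector'' 𝕜 (y n)
  choose g hg1 hg2 using hg
  have htot : ∀ z : Y, (∀ n, g n z = 0) → z = 0 := by
    intro z hz
    by_contra hne
    have hpos : 0 < ‖z‖ / 2 := by have := norm_pos_iff.2 hne; positivity
    obtain ⟨n, hn⟩ := hy.exists_dist_lt z hpos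
    rw [dist_eq_norm] at hn
    have h1 : ‖y n‖ ≤ ‖z - y n‖ := by
      have h2 : g n (z - y n) = -(‖y n‖ : 𝕜) := by rw [map_sub, hz, hg2]; simp
      have h3 := (g n).le_opNorm (z - y n)
      rw [h2] at h3
      simp only [norm_neg, RCLike.norm_ofReal, abs_norm] at h3
      exact h3.trans (mul_le_of_le_one_left (norm_nonneg _) (hg1 n))
    have h4 : ‖z‖ ≤ ‖z - y n‖ + ‖y n‖ := by
      have := norm_add_le (z - y n) (y n)
      simpa using this
    linarith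
  have hstep : ∀ (n : ℕ) (B : {B : Finset (Y × (Y →L[𝕜] 𝕜)) //
      Biorth (B : Set (Y × (Y →L[𝕜] 𝕜)))}),
      ∃ B' : {B : Finset (Y × (Y →L[𝕜] 𝕜)) // Biorth (B : Set (Y × (Y →L[𝕜] 𝕜)))},
        B.1 ⊆ B'.1 ∧ y n ∈ Submodule.span 𝕜 (Prod.fst '' (B'.1 : Set (Y × (Y →L[𝕜] 𝕜)))) ∧
        ∀ z : Y, (∀ p ∈ B'.1, p.2 z = 0) → g n z = 0 := by
    intro n B
    obtain ⟨B1, h1, h2, h3⟩ := B.2.step_vec (y n)
    obtain ⟨B2, h4, h5, h6⟩ := h2.step_fun (g n)
    refine ⟨⟨B2, h5⟩, h1.trans h4, ?_, h6⟩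
    exact Submodule.span_mono (image_mono (Finset.coe_subset.2 h4)) h3
  choose nx hnx1 hnx2 hnx3 using hstep
  let s : ℕ → {B : Finset (Y × (Y →L[𝕜] 𝕜)) // Biorth (B : Set (Y × (Y →L[𝕜] 𝕜)))} := fun n =>
    Nat.rec ⟨∅, by constructor <;> simp⟩ (fun k B => nx k B) n
  have hs : ∀ n, s (n + 1) = nx n (s n) := fun n => rfl
  have hmono : Monotone fun n => (s n).1 :=
    monotone_nat_of_le_succ fun n => hnx1 n (s n)
  refine ⟨⋃ n, ((s n).1 : Set (Y × (Y →L[𝕜] 𝕜))), ⟨?_, ?_⟩, ?_, ?_⟩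
  · intro p hp
    obtain ⟨n, hn⟩ := mem_iUnion.1 hp
    exact (s n).2.1 p hn
  · intro p hp q hq hne
    obtain ⟨n, hn⟩ := mem_iUnion.1 hp
    obtain ⟨m, hm⟩ := mem_iUnion.1 hq
    exact (s (max n m)).2.2 p (hmono (le_max_left n m) hn) q (hmono (le_max_right n m) hm) hne
  · refine Dense.mono ?_ hy
    rintro _ ⟨n, rfl⟩
    exact Submodule.span_mono (image_mono (subset_iUnion
      (fun n => ((s n).1 : Set (Y × (Y →L[𝕜] 𝕜)))) (n + 1))) (hnx2 n (s n))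
  · intro z hz
    refine htot z fun n => hnx3 n (s n) z fun p hp => hz p ?_
    exact mem_iUnion.2 ⟨n + 1, hp⟩

end sep

variable {X : Type*} [NormedAddCommGroup X] [NormedSpace 𝕜 X]

/-- A Markushevich basis of the range of a projection `R` with separable range. -/
theorem exists_markushevich_block (R : X →L[𝕜] X) (hR : ∀ x, R (R x) = R x)
    (hsep : TopologicalSpace.IsSeparable (range R)) :
    ∃ B : Set (X × (X →L[𝕜] 𝕜)), Biorth B ∧ (∀ p ∈ B, R p.1 = p.1) ∧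
      (∀ p ∈ B, ∀ x, p.2 (R x) = p.2 x) ∧
      (∀ x, R x ∈ closure (Submodule.span 𝕜 (Prod.fst '' B) : Set X)) ∧
      ∀ z : X, (∀ p ∈ B, p.2 z = 0) → R z = 0 := by
  let Y : Submodule 𝕜 X := LinearMap.range (R : X →ₗ[𝕜] X)
  have hY : (Y : Set X) = range R := by
    ext x; simp [Y]
  have : TopologicalSpace.SeparableSpace Y := by
    apply TopologicalSpace.IsSeparable.separableSpace
    rw [hY]; exact hsep
  obtain ⟨B, hB, hd, ht⟩ := exists_markushevich_of_separable (𝕜 := 𝕜) (Y := Y)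
  let R' : X →L[𝕜] Y := R.codRestrict Y fun x => ⟨x, rfl⟩
  have hR' : ∀ y : Y, R' y = y := by
    rintro ⟨_, x, rfl⟩
    exact Subtype.ext (hR x)
  have hRR : ∀ x, R' (R x) = R' x := fun x => Subtype.ext (hR x)
  refine ⟨(fun p => ((p.1 : X), p.2.comp R')) '' B, ⟨?_, ?_⟩, ?_, ?_, ?_, ?_⟩
  · rintro _ ⟨p, hp, rfl⟩
    simp only [ContinuousLinearMap.comp_apply, hR']
    exact hB.1 p hp
  · rintro _ ⟨p, hp, rfl⟩ _ ⟨q, hq, rfl⟩ hne
    simp only [ContinuousLinearMap.comp_apply, hR']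
    exact hB.2 p hp q hq fun h => hne (by rw [h])
  · rintro _ ⟨p, -, rfl⟩
    exact congrArg Subtype.val (hR' p.1)
  · rintro _ ⟨p, -, rfl⟩ x
    simp only [ContinuousLinearMap.comp_apply, hRR]
  · intro x
    have h1 : R' x ∈ closure (Submodule.span 𝕜 (Prod.fst '' B) : Set Y) := hd (R' x)
    have h2 := map_mem_closure (f := (Subtype.val : Y → X)) continuous_subtype_val h1
      (t := (Submodule.span 𝕜 (Prod.fst '' ((fun p : Y × (Y →L[𝕜] 𝕜) =>
        ((p.1 : X), p.2.comp R')) '' B)) : Set X)) ?_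
    · exact h2
    · intro y hy
      have h3 : Y.subtype y ∈ Submodule.map Y.subtype (Submodule.span 𝕜 (Prod.fst '' B)) :=
        Submodule.mem_map_of_mem hy
      rw [Submodule.map_span] at h3
      refine Submodule.span_mono ?_ h3
      rintro _ ⟨_, ⟨p, hp, rfl⟩, rfl⟩
      exact ⟨_, ⟨p, hp, rfl⟩, rfl⟩
  · intro z hz
    have : R' z = 0 := ht _ fun p hp => hz _ ⟨p, hp, rfl⟩
    exact congrArg Subtype.val this

end Pool.Agent.Lib.MP_14477d_an
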